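import Pool.Agent.Run7.h536.TB4
import Pool.Agent.Results.MP_a78e8f_nt.ThinFamilies

/-!
# Level of distribution `N / exp (K (log log N) ^ 2)` for the residues `κ v w + G(w) + s`, for almost all members `v` of a
thin family, ALL integers `s` and almost all members `w` of a second thin family

The new ingredient (`Pool.Agent.Run7.h536.TB1` to `TB4`): the class of the families of nearly minimal additive energy is
closed under `(v, w) ↦ κ v w + F + G` with ARBITRARY functions `F` of `v` and `G` of `w`; since `F` is arbitrary, the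
shift `s` may be chosen by an adversary who knows `v`. The theorem on one thin family is from the starting file
`MP_a78e8f_nt.ThinFamilies`.

Definitions used, in `Pool.Agent.Results.MP_a78e8f_nt.ThinFamilies`: `E x q a`: `ψ(x; q, a) - x / φ(q)`;
`level K N`: `N / exp (K (log log N) ^ 2)`; `τ q`: the number of divisors of `q`; `energy h v`: the number of solutions
of `v (i 1) + ⋯ + v (i h) = v (j 1) + ⋯ + v (j h)`.
-/

set_option autoImplicit false

namespace Pool.Agent.Results.MP_00e23e_nt.BilinearResiduesAllShifts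

open Finset
open Pool.Agent.Results.MP_a78e8f_nt.ThinFamilies (energy level τ E Level level_of)

/-- If the residue `a` is positive, then for all the weights `λ l` of the system, all `Q ≤ N / exp (K (log log N) ^ 2)`
and all `x ≤ B N` the sum of `λ l q * (ψ(x; q, a) - x / φ(q))` over the `q ≤ Q` coprime to `a` is at most
`N / log ^ U N` in absolute value. -/
def Good (K B U N : ℕ) {L : ℕ} (lam : Fin L → ℕ → ℝ) (a : ℤ) : Prop :=
  0 < a → ∀ l, ∀ Q : ℕ, (Q : ℝ) ≤ level K N → ∀ x : ℕ, x ≤ B * N →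
    |∑ q ∈ (Icc 1 Q).filter (fun q : ℕ => Int.gcd a q = 1), lam l q * E x q a| ≤ N / Real.log N ^ U

theorem black (h B C T U : ℕ) : ∃ K N₀ : ℕ, ∀ N : ℕ, N₀ ≤ N → ∀ lam : (Σ L : ℕ, (Fin L → ℕ → ℝ)),
    ∀ (ι : Type) [Fintype ι] (v : ι → ℤ), (∀ i, |v i| ≤ B * N) →
    (Pool.Agent.TH212.EH.En h v : ℝ) * N ≤ Real.log N ^ C * (Fintype.card ι : ℝ) ^ (2 * h) →
    ∀ S : Finset ι, (∀ i ∈ S, (((lam.1 : ℕ) : ℝ) ≤ Real.log N ^ T ∧ ∀ l q, |lam.2 l q| ≤ (τ q * Real.log N) ^ T) ∧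
      ¬ Good K B U N lam.2 (v i)) → (S.card : ℝ) ≤ Fintype.card ι / Real.log N ^ (U + U) := by
  classical
  obtain ⟨K, N₀, hN⟩ := level_of h B B C T (T + (U + U)) le_rfl
  obtain ⟨N1, h1⟩ := Pool.Agent.H373R2.T7.ev_L' 1
  refine ⟨K, N₀ + N1, fun N hNN lam ι _ v hv hE S hS => ?_⟩
  have hL := h1 N (by omega)
  obtain ⟨L, lm⟩ := lam
  rcases S.eq_empty_or_nonempty with hS0 | ⟨i₀, hi₀⟩
  · rw [hS0, card_empty, Nat.cast_zero]
    positivity
  obtain ⟨⟨hL1, hL2⟩, _⟩ := hS i₀ hi₀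
  simp only at hL1 hL2 hS
  have hlev := (hN N (by omega) ι v hv hE).1
  have hN0 : (0 : ℝ) ≤ N := Nat.cast_nonneg _
  have hmono : (N : ℝ) / Real.log N ^ (T + (U + U)) ≤ N / Real.log N ^ U := by
    apply div_le_div_of_nonneg_left hN0 (by positivity)
    exact pow_le_pow_right₀ hL (by omega)
  have hsub : S ⊆ (univ : Finset (Fin L)).biUnion (fun l => univ.filter (fun i : ι => 0 < v i ∧ ∃ Q : ℕ, (Q : ℝ) ≤ level K N ∧
      ∃ x : ℕ, x ≤ B * N ∧ N / Real.log N ^ (T + (U + U)) <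
        |∑ q ∈ (Icc 1 Q).filter (fun q : ℕ => Int.gcd (v i) q = 1), lm l q * E x q (v i)|)) := by
    intro i hi
    obtain ⟨_, hbad⟩ := hS i hi
    unfold Good at hbad
    push Not at hbad
    obtain ⟨h2, l, Q, h3, x, h4, h5⟩ := hbad
    rw [mem_biUnion]
    refine ⟨l, mem_univ _, ?_⟩
    rw [mem_filter]
    exact ⟨mem_univ _, h2, Q, h3, x, h4, lt_of_le_of_lt hmono h5⟩
  have h6 : (S.card : ℝ) ≤ ∑ l : Fin L, ((univ.filter (fun i : ι => 0 < v i ∧ ∃ Q : ℕ, (Q : ℝ) ≤ level K N ∧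
      ∃ x : ℕ, x ≤ B * N ∧ N / Real.log N ^ (T + (U + U)) <
        |∑ q ∈ (Icc 1 Q).filter (fun q : ℕ => Int.gcd (v i) q = 1), lm l q * E x q (v i)|)).card : ℝ) := by
    exact_mod_cast (card_le_card hsub).trans card_biUnion_le
  refine h6.trans ?_
  calc _ ≤ ∑ _l : Fin L, (Fintype.card ι : ℝ) / Real.log N ^ (T + (U + U)) :=
        sum_le_sum fun l _ => (hlev (lm l) (hL2 l)).1
    _ = (L : ℝ) * ((Fintype.card ι : ℝ) / Real.log N ^ (T + (U + U))) := by
        rw [sum_const, card_univ, Fintype.card_fin, nsmul_eq_mul]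
    _ ≤ Real.log N ^ T * ((Fintype.card ι : ℝ) / Real.log N ^ (T + (U + U))) :=
        mul_le_mul_of_nonneg_right hL1 (by positivity)
    _ = _ := by
        rw [pow_add]
        have : Real.log (N : ℝ) ≠ 0 := by linarith
        field_simp

open Classical in
/-- Let `h, h', r ≥ 1`, `B`, `C`, `T`, `U` be given. There is a `K` such that for all `X`, `Y` with `X ≤ Y ^ r`,
`Y ≤ X ^ r` and `N = X Y` large the following holds. Let `v i`, `i ∈ ι`, and `v' j`, `j ∈ ι'`, be arbitrary finite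
families of integers of size at most `B X` and at most `B Y`, with additive energies of orders `h`, `h'` at most
`log ^ C N` times the minimal sizes `#ι ^ (2 h) / X`, `#ι' ^ (2 h') / Y`; let `G : ι' → ℤ` be an ARBITRARY function,
`κ ≠ 0` an integer and `λ l`, `l < L ≤ log ^ T N`, weights with `|λ l q| ≤ (τ(q) log N) ^ T`.

Then all `i ∈ ι`, with at most `#ι / log ^ U N` exceptions, have the following property: for ALL integers `s`, all but
at most `#ι' / log ^ U N` of the `j ∈ ι'` are such that the residue `a = κ v i v' j + G j + s`, if `|a| ≤ B N`, is good: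
if `a > 0`, then the sum of `λ l q * (ψ(x; q, a) - x / φ(q))` over the `q ≤ Q` coprime to `a` is at most
`N / log ^ U N`, for all `l`, all `Q ≤ N / exp (K (log log N) ^ 2)` and all `x ≤ B N`. -/
theorem result (h h' r B C T U : ℕ) (hh : 1 ≤ h) (hh' : 1 ≤ h') (hr : 1 ≤ r) : ∃ K N₀ : ℕ, ∀ X Y : ℕ, N₀ ≤ X * Y →
    X ≤ Y ^ r → Y ≤ X ^ r → ∀ (ι ι' : Type) [Fintype ι] [Fintype ι'] (v : ι → ℤ) (v' : ι' → ℤ),
    (∀ i, |v i| ≤ B * X) → (∀ j, |v' j| ≤ B * Y) →
    (energy h v : ℝ) * X ≤ Real.log ((X * Y : ℕ) : ℝ) ^ C * (Fintype.card ι : ℝ) ^ (2 * h) →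
    (energy h' v' : ℝ) * Y ≤ Real.log ((X * Y : ℕ) : ℝ) ^ C * (Fintype.card ι' : ℝ) ^ (2 * h') →
    ∀ (G : ι' → ℤ) (κ : ℤ), κ ≠ 0 → ∀ (L : ℕ) (lam : Fin L → ℕ → ℝ), (L : ℝ) ≤ Real.log ((X * Y : ℕ) : ℝ) ^ T →
    (∀ l q, |lam l q| ≤ (τ q * Real.log ((X * Y : ℕ) : ℝ)) ^ T) →
    ((univ.filter (fun i : ι => ∃ s : ℤ, (Fintype.card ι' : ℝ) / Real.log ((X * Y : ℕ) : ℝ) ^ U <
      ((univ.filter (fun j : ι' => |κ * v i * v' j + G j + s| ≤ B * (X * Y : ℕ) ∧
        ¬ Good K B U (X * Y) lam (κ * v i * v' j + G j + s))).card : ℝ))).card : ℝ) ≤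
      Fintype.card ι / Real.log ((X * Y : ℕ) : ℝ) ^ U := by
  obtain ⟨K, N₀, hN⟩ := Pool.Agent.Run7.h536.TB.wrapBG h h' (r + 1) B C U hh hh' (by omega) (Σ L : ℕ, (Fin L → ℕ → ℝ))
    (fun N z => |z| ≤ B * N) (fun K lam N z => (((lam.1 : ℕ) : ℝ) ≤ Real.log N ^ T ∧ ∀ l q, |lam.2 l q| ≤ (τ q * Real.log N) ^ T) ∧
      ¬ Good K B U N lam.2 z) (fun h C _ => black h B C T U)
  refine ⟨K, N₀, fun X Y hXY hX hY ι ι' _ _ v v' hv hv' hE hE' G κ hκ L lam hL hlam => ?_⟩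
  refine hN X Y hXY hX hY ⟨L, lam⟩ ι ι' v v' hv hv' hE hE' G κ hκ (fun i s => (Fintype.card ι' : ℝ) / Real.log ((X * Y : ℕ) : ℝ) ^ U <
      ((univ.filter (fun j : ι' => |κ * v i * v' j + G j + s| ≤ B * (X * Y : ℕ) ∧
        ¬ Good K B U (X * Y) lam (κ * v i * v' j + G j + s))).card : ℝ)) ?_
  intro i s hs
  refine lt_of_lt_of_le hs ?_
  rw [← Set.ncard_coe_finset]
  apply Nat.cast_le.2
  apply Set.ncard_le_ncard _ (Set.toFinite _)
  intro j hj
  rw [mem_coe, mem_filter] at hj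
  exact ⟨hj.2.1, ⟨hL, hlam⟩, hj.2.2⟩

end Pool.Agent.Results.MP_00e23e_nt.BilinearResiduesAllShifts
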