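import Pool.Agent.Run7.h414.DP.Fam
import Pool.Agent.N625.DY.O

/-!
# Level of distribution `1 - ε` for all residues near random integers with determinantal digits

The digits of the random integer `v` are given by a determinantal random set `S` of positions (a determinantal point process
with an arbitrary Hermitian kernel): the digit number `i` is `y i` if `i ∈ S` and `x i ≠ y i` otherwise. Examples (their
existence is not used and not formalised): the edges of a uniform spanning tree of a graph with `k` edges; stationary
determinantal processes with any symbol which is not almost everywhere `0` or almost everywhere `1` (for example the discrete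
sine process with any density); independent digits; and all the events for such processes whose probability is at least
`1 / k ^ t`, for example a prescribed number of elements of `S`.

Definitions used (in `Pool.Agent.Run7.h414.DP.Law` and `Pool.Agent.Run7.h414.DP.Fam`): `DetLaw`, `GoodPos`, `DetDigits`.

Method: the characteristic function is `det (1 + D A)`; the inequality `|det N|² ≤ exp (tr N* N - k)` for
`N = 1 + B D B*`, `A = B* B`, bounds it by `exp (- E)` with an energy `E` which is at least a constant times the number of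
the good positions near the places where the frequency has a digit which is not extremal. The same inequality at the
frequencies `0, 1/2` shows that the random set has no large atoms on separated positions. The passage from such exponential
sums to primes in residue classes is from the starting files (`Pool.Agent.TH872.Mir.lv_law`, `Pool.Agent.N625.DY`).

From Mathlib: `ArithmeticFunction.vonMangoldt`: the function `Λ`; `Nat.totient`: Euler's function.
-/

set_option autoImplicit false

namespace Pool.Agent.Results.MP_00e23e_nt.DeterminantalResidues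

open Finset
open Pool.Agent.Run7.h414.DP (DetDigits)

/-- `ψ(x; q, a)`: the sum of `Λ(n)` over the `n ≤ x` with `n ≡ a (mod q)`. -/
noncomputable def psi (x q a : ℕ) : ℝ :=
  ∑ n ∈ (Icc 1 x).filter (fun n => n ≡ a [MOD q]), ArithmeticFunction.vonMangoldt n

/-- The sum of `λ(q) (ψ(x; q, a) - x / φ(q))` over the `q ≤ Q` coprime to `a`. -/
noncomputable def weighted (lam : ℕ → ℝ) (Q x a : ℕ) : ℝ :=
  ∑ q ∈ (Icc 1 Q).filter (fun q => a.Coprime q), lam q * (psi x q a - (x : ℝ) / Nat.totient q)

/-- The primes have the level of distribution `1 - ε` in the residue classes of `a`, with the weights `λ(q)`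
and up to `B N`: the sum of `λ(q) (ψ(x; q, a) - x / φ(q))` over the `q ≤ N ^ (1 - ε)` coprime to `a` has
absolute value at most `N / k ^ U` for all `x ≤ B N`, where `N = b ^ k`. -/
def Level (b B U k : ℕ) (ε : ℝ) (lam : ℕ → ℝ) (a : ℕ) : Prop :=
  ∀ x ≤ B * b ^ k, |weighted lam ⌊((b ^ k : ℕ) : ℝ) ^ (1 - ε)⌋₊ x a| ≤ ((b ^ k : ℕ) : ℝ) / (k : ℝ) ^ U

open Classical in
/-- Let `b ≥ 2`, `L`, `η > 0`, `t`, `κ ≠ 0`, `B`, `T`, `W`, `U` and `ε > 0` be fixed, let `k` be large and `N = b ^ k`.
Let `p` be dominated, up to the factor `k ^ t`, by the distribution of an integer with `k` determinantal digits (with the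
parameters `L`, `η`), let `c` be an arbitrary integer with `|c| ≤ B N`, and let `λ_l`, for at most `k ^ T` indices `l`, be
arbitrary systems of coefficients with `|λ_l(q)| ≤ k ^ T`. Then the `p`-weight of the integers `v < N` without the following
property is at most `1 / k ^ U`: for all the positive integers `a` at a distance of at most `k ^ W` from `c + κ v` and for
all `l`, the sum of `λ_l(q) (ψ(x; q, a) - x / φ(q))` over the `q ≤ N ^ (1 - ε)` coprime to `a` has absolute value at most
`N / k ^ U` for all `x ≤ B N`. -/
theorem result (b L : ℕ) (hb : 2 ≤ b) (η : ℝ) (hη : 0 < η) (t : ℕ) (κ : ℤ) (hκ : κ ≠ 0)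
    (B T W U : ℕ) (ε : ℝ) (hε : 0 < ε) :
    ∃ k₀ : ℕ, ∀ k : ℕ, k₀ ≤ k → ∀ p : ℕ → ℝ, DetDigits b L η t k p → ∀ c : ℤ, |c| ≤ B * (b : ℤ) ^ k →
      ∀ M : ℕ, (M : ℝ) ≤ (k : ℝ) ^ T → ∀ lam : Fin M → ℕ → ℝ, (∀ l q, |lam l q| ≤ (k : ℝ) ^ T) →
      ∑ v ∈ range (b ^ k), (if (∀ a : ℤ, |a - (c + κ * (v : ℕ))| ≤ (k : ℤ) ^ W → 0 < a →
        ∀ l, Level b B U k ε (lam l) a.toNat) then 0 else p v) ≤ 1 / (k : ℝ) ^ U := by
  obtain ⟨k₀, h0⟩ := Pool.Agent.N625.DY.cls_level_near
    (Pool.Agent.Run7.h414.DP.dc_cls b L η hb hη κ hκ) B T W (U + t) ε hε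
  refine ⟨k₀ + 1, fun k hk p hp c hc M hM lam hlam => ?_⟩
  obtain ⟨μ, hμ, hpμ⟩ := Pool.Agent.Run7.h414.DP.fam_dc hp
  refine Pool.Agent.Run7.h414.DP.dom_le (by omega) hpμ
    (fun v => ∀ a : ℤ, |a - (c + κ * (v : ℕ))| ≤ (k : ℤ) ^ W → 0 < a → ∀ l, Level b B (U + t) k ε (lam l) a.toNat) _ ?_
    (h0 k (by omega) μ hμ c hc M hM lam hlam)
  intro v hv a ha ha0 l
  exact Pool.Agent.N625.DY.level_mono (by omega) le_rfl (by omega) (hv a ha ha0 l)

end Pool.Agent.Results.MP_00e23e_nt.DeterminantalResidues
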