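import Pool.Agent.Run7.h794.EX.Def
import Pool.Agent.N625.DY.O

/-!
# Level of distribution `1 - ε` for all residues near random integers whose blocks of digits can be exchanged

The random integer `v` has `k` digits in base `b` and ANY distribution for which after every beginning of the word of the
digits two blocks of `L` digits can be exchanged (see `Exchangeable`). Examples: the uniform distribution on the integers
with `k` digits whose sum of digits is a prescribed number between `δ k` and `(b - 1 - δ) k` (`L = 2`, the blocks `01` and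
`10`); the words of an irreducible aperiodic subshift of finite type; Markov chains and Gibbs measures.

Method: if blocks of digits can be exchanged then the exponential sum is small at all the frequencies with many places
not close to rational numbers with a small denominator (starting file `Pool.Agent.N625.PT`); the passage from such
exponential sums to primes in residue classes is from the starting files (`Pool.Agent.TH872.Mir.lv_law`).

From Mathlib: `ArithmeticFunction.vonMangoldt`: the function `Λ`; `Nat.totient`: Euler's function.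
-/

set_option autoImplicit false

namespace Pool.Agent.Results.MP_00e23e_nt.ExchangeableResidues

open Finset
open Pool.Agent.Run7.h794.EX (Exchangeable)

/-- `ψ(x; q, a)`: the sum of `Λ(n)` over the `n ≤ x` with `n ≡ a (mod q)`. -/
noncomputable def psi (x q a : ℕ) : ℝ :=
  ∑ n ∈ (Icc 1 x).filter (fun n => n ≡ a [MOD q]), ArithmeticFunction.vonMangoldt n

/-- The sum of `λ(q) (ψ(x; q, a) - x / φ(q))` over the `q ≤ Q` coprime to `a`. -/
noncomputable def weighted (lam : ℕ → ℝ) (Q x a : ℕ) : ℝ :=
  ∑ q ∈ (Icc 1 Q).filter (fun q => a.Coprime q), lam q * (psi x q a - (x : ℝ) / Nat.totient q)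

/-- The primes have the level of distribution `1 - ε` in the residue classes of `a`, with the weights `λ(q)`
and up to `B N`: the sum of `λ(q) (ψ(x; q, a) - x / φ(q))` over the `q ≤ N ^ (1 - ε)` coprime to `a` has
absolute value at most `N / k ^ U` for all `x ≤ B N`, where `N = b ^ k`. -/
def Level (b B U k : ℕ) (ε : ℝ) (lam : ℕ → ℝ) (a : ℕ) : Prop :=
  ∀ x ≤ B * b ^ k, |weighted lam ⌊((b ^ k : ℕ) : ℝ) ^ (1 - ε)⌋₊ x a| ≤ ((b ^ k : ℕ) : ℝ) / (k : ℝ) ^ U

open Classical in
/-- Let `b ≥ 2`, `L ≥ 1`, `0 < η ≤ 1`, `t`, `κ ≠ 0`, `B`, `T`, `W`, `U` and `ε > 0` be fixed, let `k` be large and `N = b ^ k`.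
Let `p` be an exchangeable distribution (with the parameters `L`, `η`, `t`) on the integers `v < N`, let `c` be an arbitrary
integer with `|c| ≤ B N`, and let `λ_l`, for at most `k ^ T` indices `l`, be arbitrary systems of coefficients with
`|λ_l(q)| ≤ k ^ T`. Then the random integer `v` with the distribution `p` has with a probability of at least `1 - 1 / k ^ U`
the following property: for all the positive integers `a` at a distance of at most `k ^ W` from `c + κ v` and for all `l`,
the sum of `λ_l(q) (ψ(x; q, a) - x / φ(q))` over the `q ≤ N ^ (1 - ε)` coprime to `a` has absolute value at most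
`N / k ^ U` for all `x ≤ B N`. -/
theorem result (b L : ℕ) (hb : 2 ≤ b) (hL : 1 ≤ L) (η : ℝ) (hη0 : 0 < η) (hη1 : η ≤ 1) (t : ℕ) (κ : ℤ) (hκ : κ ≠ 0)
    (B T W U : ℕ) (ε : ℝ) (hε : 0 < ε) :
    ∃ k₀ : ℕ, ∀ k : ℕ, k₀ ≤ k → ∀ p : ℕ → ℝ, Exchangeable b L η t k p → ∀ c : ℤ, |c| ≤ B * (b : ℤ) ^ k →
      ∀ M : ℕ, (M : ℝ) ≤ (k : ℝ) ^ T → ∀ lam : Fin M → ℕ → ℝ, (∀ l q, |lam l q| ≤ (k : ℝ) ^ T) →
      ∑ v ∈ range (b ^ k), (if (∀ a : ℤ, |a - (c + κ * (v : ℕ))| ≤ (k : ℤ) ^ W → 0 < a →
        ∀ l, Level b B U k ε (lam l) a.toNat) then 0 else p v) ≤ 1 / (k : ℝ) ^ U := by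
  obtain ⟨k₀, h0⟩ := Pool.Agent.N625.DY.cls_level_near
    (Pool.Agent.Run7.h794.EX.cls b L hb hL η hη0 hη1 t κ hκ).toCls B T W U ε hε
  exact ⟨k₀, fun k hk p hp c hc M hM lam hlam => h0 k hk p (Pool.Agent.Run7.h794.EX.flex_of hp) c hc M hM lam hlam⟩

end Pool.Agent.Results.MP_00e23e_nt.ExchangeableResidues
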