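import Pool.Agent.Run7.h27.EH.Lev
import Pool.Agent.Run7.h794.MK.All

/-!
# Level of distribution `N / exp (K (log log N) ^ 2)` for all the residues near almost all members of families in intervals
of length `N^(1/3) log^C N`

Starting results of this kind: all the integers of an interval of this length (`ShortIntervalResidues`), and thin families
spread over an interval of length `N / log^a N` (`FamiliesOfResidues`, `MP_a78e8f_nt.ThinFamilies`).

The values of the exponential sums of the von Mangoldt function on short arcs (equivalently, in almost all short intervals)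
are from project MK (`Run7.h794.MK.law_all`, no hypotheses), the chain from first moments of correlations to levels
of distribution is that of the starting library `TH212.EH`, made independent of the class of families
(`Run7.h27.EH.Ch`).
-/

set_option autoImplicit false

namespace Pool.Agent.Results.MP_00e23e_nt.ShortFamiliesOfResidues

open Finset Polynomial

/-- `e(x) = exp (2 π i x)` -/
noncomputable def e (x : ℝ) : ℂ := Complex.exp (2 * Real.pi * Complex.I * x)

/-- `ψ(x; q, r) - x / φ(q)`, where `ψ(x; q, r)` is the sum of `Λ(n)` over the `1 ≤ n ≤ x` with `n ≡ r (mod q)`. -/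
noncomputable def E (x q r : ℕ) : ℝ :=
  ∑ n ∈ (Icc 1 x).filter (fun n => n ≡ r [MOD q]), ArithmeticFunction.vonMangoldt n - (x : ℝ) / Nat.totient q

/-- `N / exp (K (log log N) ^ 2)` -/
noncomputable def level (K N : ℕ) : ℝ := N / Real.exp (K * Real.log (Real.log N) ^ 2)

/-- `τ(q)`, the number of the divisors of `q` -/
noncomputable def τ (q : ℕ) : ℝ := q.divisors.card

/-- The residue `r` is good for the weight systems `λ l`: for all `l`, all `Q ≤ N / exp (K (log log N) ^ 2)` and all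
`x ≤ B N` the sum of `λ l q (ψ(x; q, r) - x / φ(q))` over the `q ≤ Q` coprime to `r` is at most `N / log ^ U N` in absolute
value. -/
def Good (K B U N : ℕ) {L : ℕ} (lam : Fin L → ℕ → ℝ) (r : ℕ) : Prop :=
  ∀ l, ∀ Q : ℕ, (Q : ℝ) ≤ level K N → ∀ x : ℕ, x ≤ B * N →
    |∑ q ∈ (Icc 1 Q).filter (fun q => r.Coprime q), lam l q * E x q r| ≤ (N : ℝ) / Real.log N ^ U

/-- Off at most `log^S N` arcs of the circle, of length `log^D N / H` (on both sides of the points of `Γ`), the exponential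
sums of the family are at most `#ι / log^V N`. -/
def Narrow (V S D N H : ℕ) {ι : Type} [Fintype ι] (v : ι → ℤ) : Prop :=
  ∃ Γ : Finset ℝ, (Γ.card : ℝ) ≤ Real.log N ^ S ∧
    ∀ α : ℝ, (∀ γ ∈ Γ, ∀ m : ℤ, Real.log N ^ D / H < |α - γ - m|) → ‖∑ i, e ((v i : ℝ) * α)‖ ≤ Fintype.card ι / Real.log N ^ V

open Classical in
/-- For at most `log ^ T N` weight systems with `|λ l q| ≤ (τ(q) log N) ^ T`, all the members `v i`, except for at most
`#ι / log ^ U N`, are such that ALL positive integers `r` within `log ^ W N` of `v i` are good. -/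
def AlmostAll (K N B T W U : ℕ) {ι : Type} [Fintype ι] (v : ι → ℤ) : Prop :=
  ∀ L : ℕ, (L : ℝ) ≤ Real.log N ^ T → ∀ lam : Fin L → ℕ → ℝ, (∀ l q, |lam l q| ≤ (τ q * Real.log N) ^ T) →
    ((univ.filter (fun i : ι => ¬ ∀ r : ℕ, 1 ≤ r → |(r : ℝ) - v i| ≤ Real.log N ^ W → Good K B U N lam r)).card : ℝ) ≤
      Fintype.card ι / Real.log N ^ U

/-- The Fourier coefficients of the residues `y i`, `i ∈ s`, modulo `q` at the nonzero frequencies are at most
`η` times the number of the residues: `|∑ i ∈ s, e(h y_i / q)| ≤ η |s|` for all `h ≠ 0` modulo `q`. -/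
def Flat {ι : Type} (q : ℕ) [NeZero q] (η : ℝ) (s : Finset ι) (y : ι → ZMod q) : Prop :=
  ∀ h : ZMod q, h ≠ 0 → ‖∑ i ∈ s, (ZMod.stdAddChar (h * y i) : ℂ)‖ ≤ η * s.card

theorem main (B T W U : ℕ) : ∃ V : ℕ, ∀ S D : ℕ, ∃ K C N₀ : ℕ, ∀ N : ℕ, N₀ ≤ N → ∀ H : ℕ,
    (N : ℝ) ^ (1 / 3 : ℝ) * Real.log N ^ C ≤ H → ∀ (ι : Type) [Fintype ι] (v : ι → ℤ), (∀ i, |v i| ≤ B * N) →
    Pool.Agent.Run7.h27.EH.Off V S D N H v → AlmostAll K N B T W U v := by
  obtain ⟨V, hV⟩ := Pool.Agent.Run7.h27.EH.arc_near Pool.Agent.Run7.h794.MK.law_all B T W U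
  refine ⟨V, fun S D => ?_⟩
  obtain ⟨K, C, N₀, h⟩ := hV S D
  refine ⟨K, C, N₀, fun N hN H hH ι _ v hv hoff L hL lam hlam => ?_⟩
  exact h N hN ι v hv H hH hoff L hL lam (fun l q => by
    refine (hlam l q).trans (le_of_eq ?_)
    rw [mul_pow, mul_comm]
    rfl)

/-- **(1)** Let `B`, `T`, `W`, `U` be fixed. There is a number `V` such that for all `S`, `D` there are `K`, `C` with the
following property for all large `N`. Let `H ≥ N^(1/3) log^C N`, and let `v i`, `i ∈ ι`, be ANY finite family of integers of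
size at most `B N` such that off at most `log^S N` arcs of length `log^D N / H` on the circle the exponential sums
`∑ i, e(α v_i)` are at most `#ι / log^V N`. Then all the members `v i`, except for at most `#ι / log ^ U N`, are such that for ALL
integers `r ≥ 1` within `log ^ W N` of `v i`, all the weight systems `λ l`, `l < L ≤ log ^ T N`, `|λ l q| ≤ (τ(q) log N) ^ T`, all
`Q ≤ N / exp (K (log log N) ^ 2)` and all `x ≤ B N` the sum of `λ l q (ψ(x; q, r) - x / φ(q))` over the `q ≤ Q` coprime to `r` is at most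
`N / log ^ U N`.

**(2)** The values `f(m)`, `0 ≤ m < M`, of every integer polynomial of degree `d` whose leading coefficient is at most
`log ^ a N` in absolute value, if `M ^ d ≥ N^(1/3) log^C N` and the values are at most `B N` in absolute value.

**(3)** The residues `c + κ y_i`, `|c| ≤ B N`, for every finite family `y i`, `i ∈ s`, of residues modulo `M`,
`N^(1/3) log^C N ≤ M ≤ N`, whose Fourier coefficients at the nonzero frequencies are at most `|s| / log ^ V M` (least residues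
`0 ≤ y_i < M` are meant). -/
theorem result :
    (∀ B T W U : ℕ, ∃ V : ℕ, ∀ S D : ℕ, ∃ K C N₀ : ℕ, ∀ N : ℕ, N₀ ≤ N → ∀ H : ℕ, (N : ℝ) ^ (1 / 3 : ℝ) * Real.log N ^ C ≤ H →
      ∀ (ι : Type) [Fintype ι] (v : ι → ℤ), (∀ i, |v i| ≤ B * N) → Narrow V S D N H v → AlmostAll K N B T W U v) ∧
    (∀ d a B T W U : ℕ, 1 ≤ d → ∃ K C N₀ : ℕ, ∀ N : ℕ, N₀ ≤ N → ∀ f : ℤ[X], f.natDegree = d →
      |(f.leadingCoeff : ℝ)| ≤ Real.log N ^ a → ∀ M : ℕ, (N : ℝ) ^ (1 / 3 : ℝ) * Real.log N ^ C ≤ (M : ℝ) ^ d →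
      (∀ m : ℕ, m < M → |f.eval (m : ℤ)| ≤ B * N) → AlmostAll K N B T W U (fun m : Fin M => f.eval ((m : ℕ) : ℤ))) ∧
    (∀ κ : ℤ, κ ≠ 0 → ∀ B T W U : ℕ, ∃ V K C N₀ : ℕ, ∀ N : ℕ, N₀ ≤ N → ∀ M : ℕ, ∀ [NeZero M],
      (N : ℝ) ^ (1 / 3 : ℝ) * Real.log N ^ C ≤ M → M ≤ N → ∀ (ι : Type) (s : Finset ι) (y : ι → ZMod M),
      Flat M (1 / Real.log M ^ V) s y → ∀ c : ℤ, |c| ≤ B * N →
      AlmostAll K N (B + κ.natAbs) T W U (fun i : s => c + κ * ((y i).val : ℤ))) := by
  refine ⟨fun B T W U => main B T W U, fun d a B T W U hd => ?_, fun κ hκ B T W U => ?_⟩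
  · obtain ⟨V, hV⟩ := main B T W U
    obtain ⟨S, D, N₁, h1⟩ := Pool.Agent.Run7.h27.EH.poly_off d hd a V
    obtain ⟨K, C, N₀, h⟩ := hV (2 * S) D
    refine ⟨K, C, N₀ + N₁ + 3, fun N hN f hfd hlc M hM hval => ?_⟩
    have hL : 0 < Real.log N := Real.log_pos (by exact_mod_cast (by omega : 1 < N))
    have hN0 : (0 : ℝ) < N := by exact_mod_cast (by omega : 0 < N)
    have hpos : 0 < (N : ℝ) ^ (1 / 3 : ℝ) * Real.log N ^ C := by positivity
    have hM1 : 1 ≤ M := by
      by_contra hcon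
      have : M = 0 := by omega
      rw [this, Nat.cast_zero, zero_pow (by omega)] at hM
      linarith
    refine h N (by omega) (M ^ d) (by push_cast; exact hM) (Fin M) _ (fun m => hval m m.2)
      (Pool.Agent.Run7.h27.EH.OffR.off hL.le (h1 N (by omega) f hfd hlc M hM1 (M ^ d) (Nat.one_le_pow _ _ hM1)
        (by push_cast; exact le_rfl)))
  · obtain ⟨V, hV⟩ := main (B + κ.natAbs) T W U
    obtain ⟨N₁, h1⟩ := Pool.Agent.Run7.h27.EH.flat_off κ hκ V
    obtain ⟨K, C, N₀, h⟩ := hV (2 * 1) (V + 2)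
    refine ⟨V + 3, K, C, N₀ + N₁ + 3, fun N hN M _ hM1 hM2 ι s y hf c hc => ?_⟩
    have hL3 : 1 ≤ Real.log N := by
      rw [Real.le_log_iff_exp_le (by exact_mod_cast (by omega : 0 < N))]
      have : (3 : ℝ) ≤ N := by exact_mod_cast (by omega : 3 ≤ N)
      linarith [Real.exp_one_lt_d9]
    have hM3 : (N : ℝ) ^ (1 / 3 : ℝ) ≤ M := by
      refine le_trans ?_ hM1
      exact le_mul_of_one_le_right (by positivity) (one_le_pow₀ hL3)
    refine h N (by omega) M hM1 s _ (fun i => ?_)
      (Pool.Agent.Run7.h27.EH.OffR.off (by linarith) (h1 N (by omega) M hM3 hM2 ι s y hf c))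
    refine (abs_add_le _ _).trans ?_
    have h3 : (((y i).val : ℕ) : ℤ) ≤ N := by
      have := ZMod.val_lt (y i)
      exact_mod_cast (by omega : (y i).val ≤ N)
    have h4 : |κ * ((y i).val : ℤ)| ≤ κ.natAbs * N := by
      rw [abs_mul, Int.abs_eq_natAbs κ, abs_of_nonneg (by positivity)]
      exact mul_le_mul_of_nonneg_left h3 (by positivity)
    push_cast at h4 ⊢
    linarith

end Pool.Agent.Results.MP_00e23e_nt.ShortFamiliesOfResidues
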